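import Pool.Agent.W900.SP.Tab
import Pool.Agent.H620R2.GaugeR.R1

/-!
# Simulation of an algorithm with an additional oracle, from a short table
-/

set_option autoImplicit false

namespace Pool.Agent.W900.SP

open Pool.Agent.NPC Pool.Agent.H620R2.Gauge Pool.Agent.H622R2

/-- look up the bit of `y` in the table `c` of the bits of the strings in `L` -/
def lk (L : List (List Bool)) (c y : List Bool) : Bool :=
  (L.zip c).any (fun p => decide (p.1 = y) && p.2)

/-- the oracle `O`, together with the table -/
def cor (L : List (List Bool)) (c : List Bool) (O : Oracle) : Oracle := fun y =>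
  if y.head? = some false then O y.tail else lk L c y

/-- the next action, from the input `⟨⟨c, 1 ^ N⟩, y⟩` and the answers -/
def nx (M : Alg) (u α : List Bool) : List Bool := M.D (pairBits (unpair u).2 α)

/-- the answer from the table, or the answer from the oracle `O` -/
noncomputable def an (Zf : List Bool → List (List Bool)) (u t : List Bool) (o : List Bool) : Bool :=
  if t.head? = some false then decide (o.head? = some true)
  else lk (Zf (unpair (unpair u).1).2) (unpair (unpair u).1).1 t

/-- one step of the simulation -/
noncomputable def sH (M : Alg) (Zf : List Bool → List (List Bool)) (p : List Bool × List Bool) : List Bool :=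
  if (nx M (unpair p.1).1 (unpair p.1).2).head? = some false then
    pairBits (unpair p.1).1 ((unpair p.1).2 ++
      [an Zf (unpair p.1).1 (nx M (unpair p.1).1 (unpair p.1).2).tail p.2])
  else p.1

/-- the question to the oracle `O` -/
def sQ (M : Alg) (s : List Bool) : List (List Bool) :=
  [(nx M (unpair s).1 (unpair s).2).tail.tail]

/-- one step of the simulation -/
noncomputable def stS (M : Alg) (Zf : List Bool → List (List Bool)) (O : Oracle) (s : List Bool) : List Bool :=
  sH M Zf (s, (sQ M s).map O)

/-- the result of the simulation -/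
noncomputable def simF (M : Alg) (Zf : List Bool → List (List Bool)) (O : Oracle) (u : List Bool) : List Bool :=
  (nx M (unpair ((stS M Zf O)^[M.p.eval u.length] (pairBits u []))).1
    (unpair ((stS M Zf O)^[M.p.eval u.length] (pairBits u []))).2).tail

theorem poly_u1 {α : Type} [TEnc α] {f : α → List Bool} (hf : Poly f) :
    Poly (fun a => (unpair (f a)).1) := Poly.fst (poly_unpair.comp hf)

theorem poly_u2 {α : Type} [TEnc α] {f : α → List Bool} (hf : Poly f) :
    Poly (fun a => (unpair (f a)).2) := Poly.snd (poly_unpair.comp hf)

theorem poly_lk {α : Type} [TEnc α] {L : α → List (List Bool)} {c y : α → List Bool}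
    (hL : Poly L) (hc : Poly c) (hy : Poly y) : Poly (fun a => lk (L a) (c a) (y a)) := by
  unfold lk
  refine Poly.any (p := fun a (p : List Bool × Bool) => decide (p.1 = y a) && p.2)
    (Poly.zip hL hc) ?_
  exact Poly.and (Poly.decide_eq (Poly.fst (Poly.snd Poly.id)) (hy.comp (Poly.fst Poly.id)))
    (Poly.snd (Poly.snd Poly.id))

theorem poly_nx (M : Alg) {α : Type} [TEnc α] {u a : α → List Bool} (hu : Poly u)
    (ha : Poly a) : Poly (fun x => nx M (u x) (a x)) := by
  unfold nx
  exact (poly_of_polyTime M.poly).comp (poly_pairBits (poly_u2 hu) ha)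

theorem poly_an {Zf : List Bool → List (List Bool)} (hZ : Poly Zf) {α : Type} [TEnc α] {u t o : α → List Bool} (hu : Poly u)
    (ht : Poly t) (ho : Poly o) : Poly (fun x => an Zf (u x) (t x) (o x)) := by
  unfold an
  refine Poly.ite (Poly.decide_eq (Poly.head? ht) (NPC.Poly.const _))
    (Poly.decide_eq (Poly.head? ho) (NPC.Poly.const _)) ?_
  exact poly_lk (hZ.comp (poly_u2 (poly_u1 hu))) (poly_u1 (poly_u1 hu)) ht

theorem poly_sH (M : Alg) {Zf : List Bool → List (List Bool)} (hZ : Poly Zf) : Poly (sH M Zf) := by
  have h1 : Poly (fun p : List Bool × List Bool => (unpair p.1).1) := poly_u1 (Poly.fst Poly.id)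
  have h2 : Poly (fun p : List Bool × List Bool => (unpair p.1).2) := poly_u2 (Poly.fst Poly.id)
  have h3 := poly_nx M h1 h2
  unfold sH
  refine Poly.ite (Poly.decide_eq (Poly.head? h3) (NPC.Poly.const _)) ?_ (Poly.fst Poly.id)
  exact poly_pairBits h1 (Poly.append h2
    (Poly.cons (poly_an hZ h1 (Poly.tail h3) (Poly.snd Poly.id)) (NPC.Poly.const [])))

theorem poly_sQ (M : Alg) : Poly (sQ M) := by
  unfold sQ
  exact Poly.cons (Poly.tail (Poly.tail (poly_nx M (poly_u1 Poly.id) (poly_u2 Poly.id))))
    (NPC.Poly.const [])

theorem isFP_stS (M : Alg) {Zf : List Bool → List (List Bool)} (hZ : Poly Zf) (O : Oracle) :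
    IsFP O (stS M Zf O) :=
  IsFP.tt (poly_sQ M) (poly_sH M hZ)

/-- one step for the answers -/
noncomputable def stA (M : Alg) (Zf : List Bool → List (List Bool)) (O : Oracle) (u α : List Bool) : List Bool :=
  if (nx M u α).head? = some false then
    α ++ [cor (Zf (unpair (unpair u).1).2) (unpair (unpair u).1).1 O (nx M u α).tail]
  else α

theorem stS_pair (M : Alg) (Zf : List Bool → List (List Bool)) (O : Oracle) (u α : List Bool) :
    stS M Zf O (pairBits u α) = pairBits u (stA M Zf O u α) := by
  unfold stS sH sQ stA
  simp only [unpair_pairBits, List.map_cons, List.map_nil]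
  by_cases h : (nx M u α).head? = some false
  · rw [if_pos h, if_pos h]
    congr 3
    unfold an cor
    by_cases h2 : (nx M u α).tail.head? = some false
    · rw [if_pos h2, if_pos h2]
      cases O (nx M u α).tail.tail <;> simp
    · rw [if_neg h2, if_neg h2]
  · rw [if_neg h, if_neg h]

theorem iter_stS (M : Alg) (Zf : List Bool → List (List Bool)) (O : Oracle) (u α : List Bool) (n : ℕ) :
    (stS M Zf O)^[n] (pairBits u α) = pairBits u ((stA M Zf O u)^[n] α) := by
  induction n with
  | zero => rfl
  | succ n ih => rw [Function.iterate_succ_apply', Function.iterate_succ_apply', ih, stS_pair]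

theorem length_iter_stA (M : Alg) (Zf : List Bool → List (List Bool)) (O : Oracle) (u α : List Bool) (n : ℕ) :
    ((stA M Zf O u)^[n] α).length ≤ α.length + n := by
  induction n with
  | zero => simp
  | succ n ih =>
    rw [Function.iterate_succ_apply']
    have h : ∀ β : List Bool, (stA M Zf O u β).length ≤ β.length + 1 := by
      intro β
      unfold stA
      split_ifs
      · simp
      · omega
    have := h ((stA M Zf O u)^[n] α)
    omega

theorem isFP_simF (M : Alg) {Zf : List Bool → List (List Bool)} (hZ : Poly Zf) (O : Oracle) :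
    IsFP O (simF M Zf O) := by
  have h1 : IsFP O (fun x => (stS M Zf O)^[M.p.eval x.length] (pairBits x [])) := by
    refine IsFP.loop (isFP_stS M hZ O) (g := fun x => pairBits x [])
      (poly_pairBits Poly.id (NPC.Poly.const [])) M.p
      (Polynomial.C 2 * Polynomial.X + Polynomial.C 1 + M.p) ?_
    intro x i hi
    rw [iter_stS, A2.length_pairBits]
    have h2 := length_iter_stA M Zf O x [] i
    simp only [Polynomial.eval_add, Polynomial.eval_mul, Polynomial.eval_C, Polynomial.eval_X,
      List.length_nil] at h2 ⊢
    omega
  have h2 : Poly (fun s : List Bool => (nx M (unpair s).1 (unpair s).2).tail) :=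
    Poly.tail (poly_nx M (poly_u1 Poly.id) (poly_u2 Poly.id))
  exact IsFP.comp (G := fun s : List Bool => (nx M (unpair s).1 (unpair s).2).tail)
    (IsFP.of_poly h2) h1

theorem run_sim (M : Alg) (Zf : List Bool → List (List Bool)) (O : Oracle) (u z : List Bool) : ∀ (n : ℕ) (α : List Bool),
    M.run (cor (Zf (unpair (unpair u).1).2) (unpair (unpair u).1).1 O) (unpair u).2 n α =
      some z → ∀ m, n ≤ m → (nx M u ((stA M Zf O u)^[m] α)).tail = z := by
  intro n
  induction n with
  | zero => intro α h; simp [Alg.run] at h
  | succ n ih =>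
    intro α h m hm
    rw [A2.run_succ] at h
    by_cases h1 : (M.D (pairBits (unpair u).2 α)).head? = some false
    · rw [if_pos h1] at h
      obtain ⟨m, rfl⟩ : ∃ m', m = m' + 1 := ⟨m - 1, by omega⟩
      rw [Function.iterate_succ_apply]
      have h2 : stA M Zf O u α = α ++ [cor (Zf (unpair (unpair u).1).2)
          (unpair (unpair u).1).1 O (M.D (pairBits (unpair u).2 α)).tail] := by
        unfold stA nx
        exact if_pos h1
      rw [h2]
      exact ih _ h m (by omega)
    · rw [if_neg h1] at h
      have h2 : stA M Zf O u α = α := by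
        unfold stA nx
        exact if_neg h1
      have h3 : ∀ j, (stA M Zf O u)^[j] α = α := by
        intro j
        induction j with
        | zero => rfl
        | succ j ihj => rw [Function.iterate_succ_apply', ihj, h2]
      rw [h3]
      simpa [nx] using h

/-- the simulation is correct -/
theorem simF_eq {M : Alg} {Zf : List Bool → List (List Bool)} {O : Oracle} {c n y z : List Bool}
    (h : M.out (cor (Zf n) c O) y = some z) :
    simF M Zf O (pairBits (pairBits c n) y) = z := by
  have h1 := run_sim M Zf O (pairBits (pairBits c n) y) z (M.p.eval y.length) []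
  simp only [unpair_pairBits] at h1
  have h2 := h1 h (M.p.eval (pairBits (pairBits c n) y).length) (by
    apply eval_mono
    rw [A2.length_pairBits]
    omega)
  unfold simF
  rw [iter_stS, unpair_pairBits]
  exact h2

/-- runs depend on the answers to short questions only -/
theorem out_local (M : Alg) : ∃ qb : Polynomial ℕ, ∀ (A A' : Oracle) (x : List Bool),
    (∀ y : List Bool, y.length ≤ qb.eval x.length → A y = A' y) → M.out A x = M.out A' x := by
  obtain ⟨b, hb⟩ := A2.act_bound M
  refine ⟨b, fun A A' x h => ?_⟩
  have key : ∀ (n : ℕ) (a : List Bool), a.length + n ≤ M.p.eval x.length →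
      M.run A x n a = M.run A' x n a := by
    intro n
    induction n with
    | zero => intro a _; rfl
    | succ n ih =>
      intro a ha
      rw [A2.run_succ, A2.run_succ]
      have h1 : A (M.D (pairBits x a)).tail = A' (M.D (pairBits x a)).tail := by
        apply h
        have h2 := hb x a (by omega)
        rw [List.length_tail]
        omega
      rw [h1, ih _ (by simp; omega)]
  exact key _ [] (by simp)

theorem lk_map {L : List (List Bool)} {B : Oracle} {y : List Bool} :
    lk L (L.map B) y = true ↔ y ∈ L ∧ B y = true := by
  unfold lk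
  rw [Pool.Agent.H943R5.GC.U2B.zip_map, List.any_eq_true]
  constructor
  · rintro ⟨p, hp, h⟩
    obtain ⟨q, hq, rfl⟩ := List.mem_map.1 hp
    simp only [Bool.and_eq_true, decide_eq_true_eq] at h
    obtain ⟨rfl, h⟩ := h
    exact ⟨hq, h⟩
  · rintro ⟨h1, h2⟩
    exact ⟨(y, B y), List.mem_map.2 ⟨y, h1, rfl⟩, by simp [h2]⟩

end Pool.Agent.W900.SP
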