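import Pool.Agent.W900.SP.Search
import Pool.Agent.W900.OW.Defs

/-!
# Algorithms with the oracle `O` as algorithms with the oracle `join O T`; one-way functions
-/

set_option autoImplicit false

namespace Pool.Agent.W900.SP

open Pool.Agent.NPC Pool.Agent.H620R2.Gauge Pool.Agent.H622R2 Pool.Agent.H943R5.GC

/-- the questions are sent to the left part of the oracle -/
def lftD (D : List Bool → List Bool) (y : List Bool) : List Bool :=
  if (D y).head? = some false then false :: D y else D y

theorem poly_lftD {D : List Bool → List Bool} (hD : Poly D) : Poly (lftD D) := by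
  unfold lftD
  exact Poly.ite (Poly.decide_eq (Poly.head? hD) (NPC.Poly.const _))
    (Poly.cons (NPC.Poly.const false) hD) hD

theorem isFP_join {O : Oracle} (T : Oracle) {F : List Bool → List Bool} (h : IsFP O F) :
    IsFP (join O T) F := by
  obtain ⟨M, hM⟩ := h
  refine ⟨⟨lftD M.D, polyTime_of_poly_list (poly_lftD (poly_of_polyTime M.poly)), M.p⟩,
    fun x => ?_⟩
  rw [← hM x]
  have key : ∀ (n : ℕ) (a : List Bool),
      Alg.run ⟨lftD M.D, polyTime_of_poly_list (poly_lftD (poly_of_polyTime M.poly)), M.p⟩
        (join O T) x n a = M.run O x n a := by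
    intro n
    induction n with
    | zero => intro a; rfl
    | succ n ih =>
      intro a
      rw [A2.run_succ, A2.run_succ]
      show (if (lftD M.D (pairBits x a)).head? = some false then _ else some
        (lftD M.D (pairBits x a)).tail) = _
      by_cases h1 : (M.D (pairBits x a)).head? = some false
      · have h2 : lftD M.D (pairBits x a) = false :: M.D (pairBits x a) := by
          unfold lftD
          exact if_pos h1
        rw [if_pos h1]
        rw [if_pos (by rw [h2]; rfl)]
        have h3 : join O T (lftD M.D (pairBits x a)).tail = O (M.D (pairBits x a)).tail := by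
          rw [h2, List.tail_cons]
          rcases hd : M.D (pairBits x a) with _ | ⟨b, q⟩
          · rw [hd] at h1
            simp at h1
          · rw [hd] at h1
            simp only [List.head?_cons, Option.some.injEq] at h1
            rw [h1]
            rfl
        rw [← h3]
        exact ih _
      · have h2 : lftD M.D (pairBits x a) = M.D (pairBits x a) := by
          unfold lftD
          exact if_neg h1
        rw [h2, if_neg h1, if_neg h1]
  exact key _ _

/-- Inverters relative to `join O T` can be replaced by inverters relative to `O`. -/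
theorem found_join {K : ℕ} {O T : Oracle} (hT : Sub K T) {f G : List Bool → List Bool}
    (hf : IsFP O f) (hG : IsFP (join O T) G) :
    ∃ H, IsFP O H ∧ ∀ n m, OW.Found f G n m ⊆ OW.Found f H n m := by
  -- the check
  have hC : IsFP O (fun p => if f (unpair p).2 = (unpair (unpair (unpair p).1).1).2 then [true]
      else []) := by
    have h1 : IsFP O (fun p => f (unpair p).2) :=
      IsFP.comp hf (IsFP.of_poly (poly_u2 Poly.id))
    have h2 : IsFP O (fun p => pairBits p (f (unpair p).2)) :=
      IsFP.pair (IsFP.of_poly Poly.id) h1
    have h3 : Poly (fun q : List Bool => if (unpair q).2 =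
        (unpair (unpair (unpair (unpair q).1).1).1).2 then [true] else ([] : List Bool)) :=
      Poly.ite (Poly.decide_eq (poly_u2 Poly.id) (poly_u2 (poly_u1 (poly_u1 (poly_u1 Poly.id)))))
        (NPC.Poly.const _) (NPC.Poly.const _)
    obtain ⟨N, hN⟩ := IsFP.comp (IsFP.of_poly (A := O) h3) h2
    refine ⟨N, fun x => ?_⟩
    rw [hN x]
    simp only [unpair_pairBits]
  obtain ⟨H, hH, hs⟩ := search hT hG hC
  refine ⟨H, hH, fun n m q hq => ?_⟩
  unfold OW.Found at hq ⊢
  rw [Finset.mem_filter] at hq ⊢
  refine ⟨Finset.mem_univ _, ?_⟩
  have h6 := hs (pairBits (pairBits (List.replicate n true) (f (List.ofFn q.1)))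
    (List.ofFn q.2)) (by
      simp only [unpair_pairBits]
      rw [if_pos hq.2])
  simp only [unpair_pairBits] at h6
  by_contra h7
  rw [if_neg h7] at h6
  simp at h6

end Pool.Agent.W900.SP
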