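import Pool.Agent.H628R3.RO.Defs
import Pool.Agent.H620R2.Gauge.Defs

/-!
# Very sparse additional oracles: definitions
-/

set_option autoImplicit false

namespace Pool.Agent.W900.SP

open Filter Pool.Agent.NPC Pool.Agent.H628R3.RO
open Pool.Agent.H620R2.Gauge (Quant)

/-- The join of two oracles: `false :: q` is in the join if `q` is in `O`, and `true :: q` is in
the join if `q` is in `T`. -/
def join (O T : Oracle) : Oracle
  | [] => false
  | false :: q => O q
  | true :: q => T q

/-- The language `L` is in `P` relative to `A`. -/
def IsP (A : Oracle) (L : Set (List Bool)) : Prop :=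
  ∃ V : List Bool → List Bool, IsFP A V ∧ ∀ x, x ∈ L ↔ V x = [true]

/-- The language `L` is in the level `Σ_k` of the polynomial hierarchy relative to `A`: membership
of `x` is expressed by `k` alternating quantifiers over strings of length polynomial in the length
of `x`, the first one existential, in front of a property that is decided in polynomial time. -/
def IsSig (A : Oracle) (k : ℕ) (L : Set (List Bool)) : Prop :=
  ∃ (V : List Bool → List Bool) (p : Polynomial ℕ), IsFP A V ∧
    ∀ x, x ∈ L ↔ Quant (p.eval x.length) V k true x

/-- The language `L` is in the level `Σ_k` of the polynomial hierarchy relative to `A` with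
polynomial advice: besides the input `x` a string `h |x|` of polynomially bounded length is
given, which depends on the length of the input only. -/
def IsSigPoly (A : Oracle) (k : ℕ) (L : Set (List Bool)) : Prop :=
  ∃ (L' : Set (List Bool)) (h : ℕ → List Bool) (p : Polynomial ℕ), IsSig A k L' ∧
    (∀ n, (h n).length ≤ p.eval n) ∧ ∀ x, x ∈ L ↔ pairBits x (h x.length) ∈ L'

/-- The pairs of a string `x` of length `n` and a string `r` of `m` random bits for which `G`,
given `1 ^ n`, `f x` and `r`, finds a string `x'` with `f x' = f x`. -/
def Found (f G : List Bool → List Bool) (n m : ℕ) : Finset ((Fin n → Bool) × (Fin m → Bool)) :=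
  Finset.univ.filter fun q =>
    f (G (pairBits (pairBits (List.replicate n true) (f (List.ofFn q.1))) (List.ofFn q.2))) =
      f (List.ofFn q.1)

/-- Relative to the oracle `A` all levels of the polynomial hierarchy are distinct, and `Σ_{k+1}`
is not even contained in `Σ_k` with polynomial advice; `P` is different from `UP ∩ coUP`; and
there is an exponentially strong one-way function `f`: every polynomial-time algorithm, with
polynomially many random bits, finds preimages for polynomially many of the `2 ^ n` inputs only
(counted with the probability of success). -/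
def Hard (A : Oracle) : Prop :=
  (∀ k : ℕ, ∃ L : Set (List Bool), IsSig A (k + 1) L ∧ ¬ IsSigPoly A k L) ∧
  (∃ L : Set (List Bool), IsUP A L ∧ IsUP A Lᶜ ∧ ¬ IsP A L) ∧
  (∃ f : List Bool → List Bool, IsFP A f ∧ ∀ G : List Bool → List Bool, IsFP A G →
    ∀ m : Polynomial ℕ, ∃ c : ℕ, ∀ᶠ n : ℕ in atTop,
      (Found f G n (m.eval n)).card ≤ n ^ c * 2 ^ (m.eval n))

/-- `Z` is decidable in polynomial time and contains at most `40 (log log n + 1) ^ 3` strings of
length at most `n`, for every `n` (logarithms to base `2`, rounded down). -/
def VerySparse (Z : Set (List Bool)) : Prop :=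
  (∃ f : List Bool → List Bool, PolyTime f ∧ ∀ q, q ∈ Z ↔ f q = [true]) ∧
  ∀ n : ℕ, {q ∈ Z | q.length ≤ n}.Finite ∧
    {q ∈ Z | q.length ≤ n}.ncard ≤ 40 * (Nat.log 2 (Nat.log 2 n) + 1) ^ 3

end Pool.Agent.W900.SP
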