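import Pool.Agent.W900.SP.Ran

/-!
# Finite additional oracles, and the main theorem
-/

set_option autoImplicit false

namespace Pool.Agent.W900.SP

open MeasureTheory Filter Pool.Agent.NPC Pool.Agent.H943R5.GC Pool.Agent.H543R3.PC
open Pool.Agent.H628R3.RO (randomOracle)
open Pool.Agent.H620R2.Gauge (Oracle Alg IsFP)
open Pool.Agent.H622R2

/-- a finite additional oracle does not help -/
theorem isFP_join_finite {O T : Oracle} (hT : {q | T q = true}.Finite)
    {F : List Bool → List Bool} : H628R3.RO.IsFP (join O T) F ↔ H628R3.RO.IsFP O F := by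
  rw [isFP_iff, isFP_iff]
  refine ⟨fun h => ?_, fun h => isFP_join T h⟩
  obtain ⟨M, hM⟩ := h
  obtain ⟨L, hL⟩ : ∃ L : List (List Bool), ∀ y, join O T y = true → y.head? ≠ some false →
      y ∈ L := by
    refine ⟨(hT.toFinset.toList).map (fun q => true :: q), fun y h1 h2 => ?_⟩
    rcases y with _ | ⟨b, q⟩
    · simp [join] at h1
    · cases b with
      | false => simp at h2
      | true =>
        rw [List.mem_map]
        refine ⟨q, ?_, rfl⟩
        rw [Finset.mem_toList, Set.Finite.mem_toFinset]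
        exact h1
  have hZ : Poly (fun _ : List Bool => L) := NPC.Poly.const L
  have hcor : cor L (L.map (join O T)) O = join O T := by
    funext y
    unfold cor
    rcases y with _ | ⟨b, q⟩
    · rw [if_neg (by simp)]
      show _ = false
      rw [Bool.eq_false_iff]
      intro h
      have h2 := (lk_map.1 h).2
      simp [join] at h2
    · cases b with
      | false =>
        rw [if_pos (by simp)]
        rfl
      | true =>
        rw [if_neg (by simp), Bool.eq_iff_iff, lk_map]
        exact ⟨fun h => h.2, fun h => ⟨hL _ h (by simp), h⟩⟩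
  have h1 : F = fun y => simF M (fun _ => L) O
      (pairBits (pairBits (L.map (join O T)) []) y) := by
    funext y
    symm
    apply simF_eq
    show M.out (cor L (L.map (join O T)) O) y = some (F y)
    rw [hcor]
    exact hM y
  rw [h1]
  exact Pool.Agent.H620R2.Gauge.IsFP.comp (isFP_simF M hZ O)
    (Pool.Agent.H620R2.Gauge.IsFP.of_poly (poly_pairBits (NPC.Poly.const _) Poly.id))

/-- the property depends on the polynomial-time functions only -/
def Inv (X : Oracle → Prop) : Prop :=
  ∀ A A' : Oracle, (∀ F, H628R3.RO.IsFP A F ↔ H628R3.RO.IsFP A' F) → X A → X A'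

theorem inv_npc : Inv HasNPC := by
  intro A A' h hA
  simpa only [HasNPC, H628R3.RO.IsCoNP, H628R3.RO.IsNP, H628R3.RO.Red, h] using hA

theorem inv_up : Inv HasUP := by
  intro A A' h hA
  simpa only [HasUP, H628R3.RO.IsUP, H628R3.RO.Red, h] using hA

theorem inv_dnp : Inv HasDNP := by
  intro A A' h hA
  simpa only [HasDNP, H628R3.RO.IsPair, H628R3.RO.IsNP, H628R3.RO.RedPair, h] using hA

theorem inv_dconp : Inv HasDCoNP := by
  intro A A' h hA
  simpa only [HasDCoNP, H628R3.RO.IsPair, H628R3.RO.IsCoNP, H628R3.RO.IsNP,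
    H628R3.RO.RedPair, h] using hA

theorem inv_tfnp : Inv HasTFNP := by
  intro A A' h hA
  simpa only [HasTFNP, H628R3.RO.IsTFNP, H628R3.RO.RedSearch, h] using hA

theorem inv_opt : Inv HasOpt := by
  intro A A' h hA
  simpa only [HasOpt, H628R3.RO.IsCoNP, H628R3.RO.CoNPHardRel, H628R3.RO.IsNP, H628R3.RO.Red,
    H628R3.RO.IsOptimal, H628R3.RO.IsProofSystem, h] using hA

theorem inv_poptT : Inv HasPOptT := by
  intro A A' h hA
  simpa only [HasPOptT, H628R3.RO.IsCoNP, H628R3.RO.CoNPHardRel, H628R3.RO.IsNP, H628R3.RO.Red,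
    H628R3.RO.IsPOptimal, H628R3.RO.IsProofSystem, h] using hA

theorem inv_poptS : Inv HasPOptS := by
  intro A A' h hA
  simpa only [HasPOptS, H628R3.RO.NPHardRel, H628R3.RO.IsNP, H628R3.RO.Red,
    H628R3.RO.IsPOptimal, H628R3.RO.IsProofSystem, h] using hA

/-- The statement: one very sparse set `Z` suffices to repair all oracles; almost every oracle
needs to be repaired, no finite set suffices, and the repairs do not affect hardness. -/
def Stmt (X : Oracle → Prop) : Prop :=
  ∃ Z : Set (List Bool), VerySparse Z ∧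
    (∀ O : Oracle, ∃ T : Oracle, (∀ q, T q = true → q ∈ Z) ∧ X (join O T)) ∧
    ∀ᵐ O ∂randomOracle,
      (∀ T : Oracle, {q | T q = true}.Finite → ¬ X (join O T)) ∧
      ∀ T : Oracle, (∀ q, T q = true → q ∈ Z) → Hard (join O T)

theorem main {X : Oracle → Prop} (hX : ∀ K A, Good K Bad A → X A)
    (hae : ∀ᵐ A ∂randomOracle, ¬ X A) (hinv : Inv X) : Stmt X := by
  obtain ⟨K, hK⟩ := exists_loc
  refine ⟨ZZ K, verySparse_ZZ K, fun O => ?_, ?_⟩
  · obtain ⟨T, h1, h2⟩ := exists_T hK O
    exact ⟨T, h1, hX K _ h2⟩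
  · filter_upwards [hae, ae_hard K] with O h1 h2
    exact ⟨fun T hT h => h1 (hinv _ _ (fun F => isFP_join_finite hT) h), h2⟩

theorem stmt_npc : Stmt HasNPC := main (fun _ _ h => has_npc h) ae_not_npc inv_npc

theorem stmt_up : Stmt HasUP := main (fun _ _ h => has_up h) ae_not_up inv_up

theorem stmt_dnp : Stmt HasDNP := main (fun _ _ h => has_dnp h) ae_not_dnp inv_dnp

theorem stmt_dconp : Stmt HasDCoNP := main (fun _ _ h => has_dconp h) ae_not_dconp inv_dconp

theorem stmt_tfnp : Stmt HasTFNP := main (fun _ _ h => has_tfnp h) ae_not_tfnp inv_tfnp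

theorem stmt_opt : Stmt HasOpt :=
  main (fun _ _ h => hasOpt_of_hasPOptT (has_poptT h)) ae_not_opt inv_opt

theorem stmt_poptT : Stmt HasPOptT := main (fun _ _ h => has_poptT h) ae_not_poptT inv_poptT

theorem stmt_poptS : Stmt HasPOptS := main (fun _ _ h => has_poptS h) ae_not_poptS inv_poptS

end Pool.Agent.W900.SP
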