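import Pool.Agent.W900.SP.Left
import Pool.Agent.W908.C1
import Pool.Agent.H591R3.PHG.LangSig

/-!
# The levels of the polynomial hierarchy with advice
-/

set_option autoImplicit false

namespace Pool.Agent.W900.SP

open Pool.Agent.NPC Pool.Agent.H620R2.Gauge Pool.Agent.H622R2 Pool.Agent.H943R5.GC
  Pool.Agent.W908.Col

attribute [local irreducible] unpair

theorem isSig_join {O : Oracle} (T : Oracle) {k : ℕ} {L : Set (List Bool)} (h : H591R3.PHG.IsSig O k L) :
    H591R3.PHG.IsSig (join O T) k L := by
  obtain ⟨V, p, hV, hL⟩ := h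
  exact ⟨V, p, isFP_join T hV, hL⟩

/-- the innermost string -/
def bs : ℕ → List Bool → List Bool
  | 0, z => z
  | k + 1, z => bs k (unpair z).2

theorem poly_bs (k : ℕ) : Poly (bs k) := by
  induction k with
  | zero => exact Poly.id.congr fun _ => rfl
  | succ k ih => exact (ih.comp (poly_u2 Poly.id)).congr fun _ => rfl

theorem quant_congr (m : ℕ) (V V' : List Bool → List Bool) (P : ℕ → List Bool → Prop)
    (hP : ∀ j y w, w.length ≤ m → P (j + 1) y → P j (pairBits w y))
    (h0 : ∀ z, P 0 z → (V z = [true] ↔ V' z = [true])) :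
    ∀ (k : ℕ) (b : Bool) (y : List Bool), P k y → (Quant m V k b y ↔ Quant m V' k b y) := by
  intro k
  induction k with
  | zero =>
    intro b y hy
    cases b <;> exact h0 y hy
  | succ k ih =>
    intro b y hy
    cases b with
    | true =>
      simp only [Quant]
      exact exists_congr fun w => and_congr_right fun hw => ih false _ (hP k y w hw hy)
    | false =>
      simp only [Quant]
      exact forall_congr' fun w => imp_congr_right fun hw => ih true _ (hP k y w hw hy)

/-- Levels of the hierarchy relative to `join O T`, as levels relative to `O` with advice -/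
theorem isSigPoly_of_join {K : ℕ} {O T : Oracle} (hT : Sub K T) {k : ℕ} {L : Set (List Bool)}
    (h : H591R3.PHG.IsSigPoly (join O T) k L) : H591R3.PHG.IsSigPoly O k L := by
  obtain ⟨L', h, p, ⟨V, p', ⟨M, hM⟩, hL'⟩, hh, hL⟩ := h
  obtain ⟨qb, hqb⟩ := out_local M
  -- the lengths
  obtain ⟨X, hX⟩ : ∃ X : Polynomial ℕ, X = Polynomial.C 2 * Polynomial.X + Polynomial.C 1 + p :=
    ⟨_, rfl⟩
  obtain ⟨R, hR⟩ : ∃ R : Polynomial ℕ, R = qb.comp (X + Polynomial.C k *
    (Polynomial.C 2 * p'.comp X + Polynomial.C 1)) := ⟨_, rfl⟩
  obtain ⟨n1, hn1⟩ : ∃ n1 : ℕ → List Bool, n1 = fun n => List.replicate (R.eval n) true :=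
    ⟨_, rfl⟩
  obtain ⟨h2, hh2⟩ : ∃ h2 : ℕ → List Bool, h2 = fun n =>
      pairBits (h n) (pairBits ((Zl K (n1 n)).map (join O T)) (n1 n)) := ⟨_, rfl⟩
  -- the base function
  obtain ⟨G, hG⟩ : ∃ G : List Bool → List Unit × List Bool, G = fun y =>
      (List.replicate (p'.eval (pairBits (unpair y).1 (unpair (unpair y).2).1).length) (),
        pairBits (unpair y).1 (unpair (unpair y).2).1) := ⟨_, rfl⟩
  have pG : Poly G := by
    have h3 : Poly (fun y : List Bool => pairBits (unpair y).1 (unpair (unpair y).2).1) :=
      poly_pairBits (poly_u1 Poly.id) (poly_u1 (poly_u2 Poly.id))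
    rw [hG]
    exact Poly.pair (UPoly.eval (UPoly.length h3) p') h3
  obtain ⟨r, hr⟩ := len_bound pG
  obtain ⟨V', hV'⟩ : ∃ V' : List Bool → List Bool, V' = fun z =>
      simF M (Zl K) O (pairBits (unpair (unpair (bs k z)).2).2 (tr G k z).2) := ⟨_, rfl⟩
  have pV' : IsFP O V' := by
    have h3 : Poly (fun z : List Bool =>
        pairBits (unpair (unpair (bs k z)).2).2 (tr G k z).2) :=
      poly_pairBits (poly_u2 (poly_u2 (poly_bs k))) (Poly.snd (poly_tr pG k))
    rw [hV']
    exact IsFP.comp (isFP_simF M (poly_Zl K) O) (IsFP.of_poly h3)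
  refine ⟨{y | Quant (r.eval y.length) V' k true y}, h2,
    Polynomial.C 2 * p + (Polynomial.C 2 * (Polynomial.C (2 ^ 11977) * (R + 1)) + R) +
      Polynomial.C 2, ⟨V', r, pV', fun y => Iff.rfl⟩, ?_, ?_⟩
  · intro n
    rw [hh2]
    dsimp only
    rw [A2.length_pairBits, A2.length_pairBits, List.length_map]
    have h3 := two_pow_Zl K (n1 n)
    have h4 : (Zl K (n1 n)).length < 2 ^ ((Zl K (n1 n)).length + 1) :=
      lt_of_lt_of_le Nat.lt_two_pow_self (Nat.pow_le_pow_right (by norm_num) (by omega))
    have h5 : (n1 n).length = R.eval n := by rw [hn1]; simp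
    rw [h5] at h3 ⊢
    have h6 := hh n
    simp only [Polynomial.eval_add, Polynomial.eval_mul, Polynomial.eval_C, Polynomial.eval_one]
    omega
  · intro x
    rw [hL x, hL']
    show _ ↔ Quant (r.eval (pairBits x (h2 x.length)).length) V' k true
      (pairBits x (h2 x.length))
    obtain ⟨y, hy⟩ : ∃ y, y = pairBits x (h2 x.length) := ⟨_, rfl⟩
    obtain ⟨x', hx'⟩ : ∃ x', x' = pairBits x (h x.length) := ⟨_, rfl⟩
    rw [← hy, ← hx']
    have hGy : G y = (List.replicate (p'.eval x'.length) (), x') := by
      rw [hG]
      dsimp only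
      rw [hy, unpair_pairBits]
      dsimp only
      rw [hh2]
      dsimp only
      rw [unpair_pairBits]
      dsimp only
      rw [← hx']
    have hm : p'.eval x'.length ≤ r.eval y.length := by
      have h3 := hr y
      rw [hGy] at h3
      simpa using h3
    have h3 := quant_tr G V hm k 0 true y x' (by rw [tr, hGy])
    rw [zero_add] at h3
    rw [h3]
    refine quant_congr _ _ _ (fun j z => ∃ t, j ≤ k ∧ bs (k - j) z = y ∧
      tr G (k - j) z = (List.replicate (p'.eval x'.length) (), t) ∧
      t.length ≤ x'.length + (k - j) * (2 * p'.eval x'.length + 1)) ?_ ?_ k true y ?_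
    · rintro j z w hw ⟨t, h4, h5, h6, h7⟩
      have e : k - j = k - (j + 1) + 1 := by omega
      refine ⟨pairBits (w.take (p'.eval x'.length)) t, by omega, ?_, ?_, ?_⟩
      · rw [e, bs, unpair_pairBits]
        exact h5
      · rw [e, tr]
        simp only [unpair_pairBits, h6, U2.map_fst_zip_replicate]
      · rw [A2.length_pairBits, e]
        have h8 : (w.take (p'.eval x'.length)).length ≤ p'.eval x'.length := by simp
        have h9 : (k - (j + 1) + 1) * (2 * p'.eval x'.length + 1) =
            (k - (j + 1)) * (2 * p'.eval x'.length + 1) + (2 * p'.eval x'.length + 1) := by ring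
        omega
    · rintro z ⟨t, -, h5, h6, h7⟩
      rw [Nat.sub_zero] at h5 h6 h7
      have h8 : V' z = V t := by
        rw [hV']
        dsimp only
        rw [h5, h6]
        dsimp only
        have h9 : (unpair (unpair y).2).2 = pairBits ((Zl K (n1 x.length)).map (join O T))
            (n1 x.length) := by
          rw [hy, unpair_pairBits]
          dsimp only
          rw [hh2]
          dsimp only
          rw [unpair_pairBits]
        rw [h9]
        apply simF_eq
        rw [← hM t]
        apply hqb
        intro q hq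
        refine cor_eq hT O _ _ (hq.trans ?_)
        have h10 : (n1 x.length).length = R.eval x.length := by rw [hn1]; simp
        rw [h10, hR, Polynomial.eval_comp]
        apply eval_mono
        have h11 : x'.length ≤ X.eval x.length := by
          rw [hx', A2.length_pairBits, hX]
          simp only [Polynomial.eval_add, Polynomial.eval_mul, Polynomial.eval_C,
            Polynomial.eval_X]
          have := hh x.length
          omega
        have h12 := eval_mono p' h11
        refine h7.trans ?_
        simp only [Polynomial.eval_add, Polynomial.eval_mul, Polynomial.eval_C,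
          Polynomial.eval_comp]
        refine Nat.add_le_add h11 (Nat.mul_le_mul_left _ ?_)
        omega
      rw [h6, h8]
    · refine ⟨x', le_refl k, ?_, ?_, ?_⟩
      · rw [Nat.sub_self, bs]
      · rw [Nat.sub_self, tr, hGy]
      · omega

end Pool.Agent.W900.SP
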