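import Pool.Agent.W900.SP.Sim
import Pool.Agent.H943R5.GC.FinalB
import Pool.Agent.W900.SP.Defs

/-!
# Every oracle can be joined with a very sparse one such that the promises are encoded
-/

set_option autoImplicit false

namespace Pool.Agent.W900.SP

open Pool.Agent.NPC Pool.Agent.H620R2.Gauge Pool.Agent.H622R2 Pool.Agent.H943R5.GC

/-- The additional oracle is a subset of `ZZ K`. -/
def Sub (K : ℕ) (T : Oracle) : Prop := ∀ q, T q = true → q ∈ ZZ K

theorem exists_T {K : ℕ} (hK : Loc K Bad) (O : Oracle) :
    ∃ T : Oracle, Sub K T ∧ Good K Bad (join O T) := by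
  obtain ⟨Φ, hΦ⟩ := exists_plant K Bad hK
  obtain ⟨h1, h2⟩ := hΦ (join O (fun _ => false))
  have hno : ∀ v s i, join O (fun _ => false) (YY K v s i) = false := by
    intro v s i
    obtain ⟨q, hq⟩ := YY_cons K v s i
    rw [hq]
    rfl
  have hgood : Good K Bad (Φ (join O (fun _ => false))) := by
    refine good_of_plant K Bad _ _ h1 h2 ?_
    intro v s h
    have h3 := h 0 (by unfold LL; omega)
    rw [hno] at h3
    exact absurd h3 (by simp)
  have hj : join O (fun q => Φ (join O (fun _ => false)) (true :: q)) =
      Φ (join O (fun _ => false)) := by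
    funext y
    rcases y with _ | ⟨b, q⟩
    · rw [h2]
      · rfl
      · intro v s i _ _ h
        obtain ⟨q, hq⟩ := YY_cons K v s i
        rw [hq] at h
        simp at h
    · cases b with
      | true => rfl
      | false =>
        rw [h2]
        · rfl
        · intro v s i _ _ h
          obtain ⟨q', hq⟩ := YY_cons K v s i
          rw [hq] at h
          simp at h
  refine ⟨fun q => Φ (join O (fun _ => false)) (true :: q), ?_, by rw [hj]; exact hgood⟩
  intro q hq
  by_contra hc
  have h3 := h2 (true :: q) (by
    intro v s i hi hk h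
    exact hc (mem_ZZ_of_YY (K := K) (v := v) (s := s) (i := i) hk.1 hi h.symm))
  replace hq : Φ (join O (fun _ => false)) (true :: q) = true := hq
  rw [h3] at hq
  exact absurd hq (by simp [join])

/-- the table gives the correct answers -/
theorem cor_eq {K : ℕ} {T : Oracle} (hT : Sub K T) (O : Oracle) (n y : List Bool)
    (hy : y.length ≤ n.length) :
    cor (Zl K n) ((Zl K n).map (join O T)) O y = join O T y := by
  unfold cor
  rcases y with _ | ⟨b, q⟩
  · rw [if_neg (by simp)]
    show _ = false
    rw [Bool.eq_false_iff]
    intro h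
    have h2 := (lk_map.1 h).1
    obtain ⟨q, hq⟩ := cons_of_mem_Zl h2
    simp at hq
  · cases b with
    | false =>
      rw [if_pos (by simp)]
      rfl
    | true =>
      rw [if_neg (by simp)]
      rw [Bool.eq_iff_iff, lk_map]
      constructor
      · exact fun h => h.2
      · intro h
        refine ⟨?_, h⟩
        have h2 : (true :: q) ∈ Zl K (true :: q) := hT q h
        exact Zl_mono hy h2

end Pool.Agent.W900.SP
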