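import Pool.Agent.W900.SP.Upp
import Pool.Agent.W900.SP.Hier
import Pool.Agent.W900.SP.Defs
import Pool.Agent.W900.OW.Pos
import Pool.Agent.H591R3.PHG.Cover
import Pool.Agent.H943R5.GC.N6

/-!
# Random oracles
-/

set_option autoImplicit false

namespace Pool.Agent.W900.SP

open MeasureTheory Filter Pool.Agent.NPC Pool.Agent.H943R5.GC
open Pool.Agent.H628R3.RO (randomOracle)
open Pool.Agent.H620R2.Gauge (Oracle Extends Null)

theorem biased_random : BC.Biased (fun _ => 0) randomOracle := by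
  intro σ b
  have h1 : randomOracle {A : Oracle | Extends A (σ ++ [b])} = (2⁻¹ : ENNReal) ^ (σ.length + 1) := by
    have h := N6.meas_cyl (σ ++ [b])
    rw [List.length_append, List.length_singleton] at h
    exact h
  have h2 : randomOracle {A : Oracle | Extends A σ} = (2⁻¹ : ENNReal) ^ σ.length :=
    N6.meas_cyl σ
  rw [h1, h2, pow_succ, mul_comm]
  refine mul_le_mul_left ?_ _
  rw [add_zero, one_div, ENNReal.ofReal_inv_of_pos (by norm_num)]
  simp

theorem negl_zero : OW.Negl (fun _ => 0) := by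
  intro c
  filter_upwards with n
  positivity

/-- random oracles have strong one-way functions -/
theorem ae_owf : ∀ᵐ A ∂randomOracle, ∃ f, H620R2.Gauge.IsFP A f ∧
    ∀ G, H620R2.Gauge.IsFP A G → ∀ m : Polynomial ℕ, ∃ c : ℕ, ∀ᶠ n : ℕ in atTop,
      (OW.Found f G n (m.eval n)).card ≤ n ^ c * 2 ^ (m.eval n) := by
  haveI : IsProbabilityMeasure randomOracle :=
    inferInstanceAs (IsProbabilityMeasure (Measure.infinitePi
      (fun _ : List Bool => H628R3.RO.coin)))
  exact OW.pos_part negl_zero biased_random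

theorem measure_zero_of_null {X : Set Oracle} (h : Null (fun _ => 0) X) : randomOracle X = 0 := by
  have h1 : ∀ δ : ℝ, 0 < δ → randomOracle X ≤ ENNReal.ofReal δ := by
    intro δ hδ
    obtain ⟨S, hS, hs⟩ := h δ hδ
    have h2 : X ⊆ ⋃ σ : S, N6.cyl σ.1 := by
      intro A hA
      obtain ⟨σ, hσ, hE⟩ := hS A hA
      exact Set.mem_iUnion.2 ⟨⟨σ, hσ⟩, hE⟩
    refine (measure_mono h2).trans ((measure_iUnion_le _).trans (le_trans (le_of_eq ?_) hs))
    congr 1
    funext σ
    rw [N6.meas_cyl, zero_sub, N6.half_pow]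
  by_contra hne
  have h3 : 0 < randomOracle X := pos_iff_ne_zero.2 hne
  obtain ⟨δ, hδ0, hδ⟩ := ENNReal.lt_iff_exists_nnreal_btwn.1 h3
  have h4 : (0 : ℝ) < (δ : ℝ) := by exact_mod_cast hδ0
  have h5 := h1 δ h4
  rw [ENNReal.ofReal_coe_nnreal] at h5
  exact absurd (lt_of_lt_of_le hδ h5) (lt_irrefl _)

/-- random oracles have an infinite hierarchy, even with advice -/
theorem ae_ph : ∀ᵐ A ∂randomOracle, ∀ k, ¬ H591R3.PHG.IsSigPoly A k (H591R3.PHG.lang k A) := by
  rw [ae_iff]
  apply measure_zero_of_null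
  refine H591R3.PHG.null_of_frequently2 _ ?_ _ ?_
  · intro ε _
    refine Filter.Eventually.frequently (Filter.Eventually.of_forall fun N => ?_)
    positivity
  · intro A hA
    simpa using hA

/-- random oracles separate `P` from `UP ∩ coUP` -/
theorem ae_up : ∀ᵐ A ∂randomOracle, ∃ L : Set (List Bool), H628R3.RO.IsUP A L ∧
    H628R3.RO.IsUP A Lᶜ ∧ ¬ H620R2.Gauge.IsP A L := by
  filter_upwards [Pool.Agent.H673R3.UC.main_N] with A hA
  have h1 : ∀ b : Bool, H628R3.RO.IsNP A {x : List Bool | (decide (x = [true])) = b} := by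
    intro b
    refine ⟨fun y => if decide ((unpair y).1 = [true]) = b then [true] else [], 0, ?_, fun x => ?_⟩
    · apply U6.isFP_toRO
      apply H620R2.Gauge.IsFP.of_poly
      exact Poly.ite (Poly.decide_eq (Poly.decide_eq (poly_u1 Poly.id) (NPC.Poly.const _))
        (NPC.Poly.const _)) (NPC.Poly.const _) (NPC.Poly.const _)
    · rw [Set.mem_ofPred_eq]
      constructor
      · intro h
        refine ⟨[], by simp, ?_⟩
        dsimp only
        rw [unpair_pairBits]
        exact if_pos h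
      · rintro ⟨w, _, h⟩
        dsimp only at h
        rw [unpair_pairBits] at h
        by_contra h2
        rw [if_neg h2] at h
        simp at h
  have h2 : ({x : List Bool | (decide (x = [true])) = true})ᶜ =
      {x : List Bool | (decide (x = [true])) = false} := by
    ext x
    rw [Set.mem_compl_iff, Set.mem_ofPred_eq, Set.mem_ofPred_eq]
    rw [Bool.not_eq_true]
  obtain ⟨L, h3, h4, h5⟩ := hA _ (h1 true) (by
    show H628R3.RO.IsNP A _
    rw [h2]
    exact h1 false)
  refine ⟨L, h3, h4, ?_⟩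
  rintro ⟨V, hV, hL⟩
  apply h5
  refine ⟨V, U6.isFP_toRO hV, fun x => ?_⟩
  rw [hL x, Set.mem_ofPred_eq, decide_eq_true_iff]

theorem isFP_iff {A : Oracle} {F : List Bool → List Bool} :
    H628R3.RO.IsFP A F ↔ H620R2.Gauge.IsFP A F :=
  ⟨U6.isFP_ofRO, U6.isFP_toRO⟩

theorem isSig_iff {A : Oracle} {k : ℕ} {L : Set (List Bool)} :
    IsSig A k L ↔ H591R3.PHG.IsSig A k L := by
  unfold IsSig H591R3.PHG.IsSig
  simp only [isFP_iff]

theorem isSigPoly_iff {A : Oracle} {k : ℕ} {L : Set (List Bool)} :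
    IsSigPoly A k L ↔ H591R3.PHG.IsSigPoly A k L := by
  unfold IsSigPoly H591R3.PHG.IsSigPoly
  simp only [isSig_iff]

theorem isP_iff {A : Oracle} {L : Set (List Bool)} : IsP A L ↔ H620R2.Gauge.IsP A L := by
  unfold IsP H620R2.Gauge.IsP
  simp only [isFP_iff]

/-- For almost every oracle all the hardness properties hold relative to all oracles
`join O T`, `T ⊆ ZZ K`. -/
theorem ae_hard (K : ℕ) : ∀ᵐ O ∂randomOracle, ∀ T : Oracle, Sub K T → Hard (join O T) := by
  filter_upwards [ae_ph, ae_up, ae_owf] with O h1 h2 h3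
  intro T hT
  refine ⟨fun k => ⟨H591R3.PHG.lang k O, ?_, ?_⟩, ?_, ?_⟩
  · rw [isSig_iff]
    exact isSig_join T (H591R3.PHG.lang_sig O k)
  · rw [isSigPoly_iff]
    exact fun h => h1 k (isSigPoly_of_join hT h)
  · obtain ⟨L, h4, h5, h6⟩ := h2
    obtain ⟨L', h7, h8, h9⟩ := up_join hT h4 h5 h6
    exact ⟨L', h7, h8, fun h => h9 (isP_iff.1 h)⟩
  · obtain ⟨f, hf, h⟩ := h3
    refine ⟨f, isFP_iff.2 (isFP_join T hf), fun G hG m => ?_⟩
    obtain ⟨H, hH, hs⟩ := found_join hT hf (isFP_iff.1 hG)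
    obtain ⟨c, hc⟩ := h H hH m
    refine ⟨c, ?_⟩
    filter_upwards [hc] with n hn
    exact (Finset.card_le_card (hs n (m.eval n))).trans hn

/-- the set `ZZ K` is very sparse -/
theorem verySparse_ZZ (K : ℕ) : VerySparse (ZZ K) := by
  refine ⟨ZZ_dec K, fun n => ?_⟩
  have h1 : {q ∈ ZZ K | q.length ≤ n} ⊆
      (((Zl K (List.replicate (n + 1) true)).map List.tail).toFinset : Set (List Bool)) := by
    rintro q ⟨hq, hn⟩
    rw [List.coe_toFinset, Set.mem_ofPred_eq, List.mem_map]
    exact ⟨true :: q, Zl_mono (by simpa using hn) hq, rfl⟩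
  have h2 : (((Zl K (List.replicate (n + 1) true)).map List.tail).toFinset :
      Set (List Bool)).ncard ≤ 40 * (Nat.log 2 (Nat.log 2 n) + 1) ^ 3 := by
    rw [Set.ncard_coe_finset]
    refine (List.toFinset_card_le _).trans ?_
    rw [List.length_map]
    refine (length_Zl K _).trans ?_
    rw [List.length_replicate]
    have h3 : rd (n + 1) ≤ Nat.log 2 (Nat.log 2 n) + 1 := by
      unfold rd
      rcases Nat.eq_zero_or_pos n with rfl | hn
      · simp
      · have h4 : Nat.clog 2 (n + 1) ≤ Nat.log 2 n + 1 := by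
          apply (Nat.clog_le_iff_le_pow (by norm_num)).2
          exact Nat.lt_pow_succ_log_self (by norm_num) n
        refine (Nat.clog_mono_right 2 h4).trans ?_
        apply (Nat.clog_le_iff_le_pow (by norm_num)).2
        exact Nat.lt_pow_succ_log_self (by norm_num) _
    obtain ⟨ℓ, hℓ⟩ : ∃ ℓ, ℓ = Nat.log 2 (Nat.log 2 n) + 1 := ⟨_, rfl⟩
    rw [← hℓ] at h3 ⊢
    have h5 : 1 ≤ ℓ := by omega
    calc (rd (n + 1) + 1) * ((rd (n + 1) + 1) * (6 * rd (n + 1) + 4))
        ≤ (2 * ℓ) * ((2 * ℓ) * (10 * ℓ)) := by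
          apply Nat.mul_le_mul (by omega)
          apply Nat.mul_le_mul (by omega) (by omega)
      _ = 40 * ℓ ^ 3 := by ring
  exact ⟨(Finset.finite_toSet _).subset h1, (Set.ncard_le_ncard h1 (Finset.finite_toSet _)).trans h2⟩

end Pool.Agent.W900.SP
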