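import Pool.Agent.W900.SP.Plant

/-!
# Search problems with checkable solutions: the additional oracle can be removed
-/

set_option autoImplicit false

namespace Pool.Agent.W900.SP

open Pool.Agent.NPC Pool.Agent.H620R2.Gauge Pool.Agent.H622R2 Pool.Agent.H943R5.GC

theorem grow : ∀ r : ℕ, (15 + r + 2) * ((15 + r + 2) * (6 * (15 + r + 1) + 4)) + 1 ≤ 2 ^ (15 + r) := by
  intro r
  induction r with
  | zero => norm_num
  | succ r ih =>
    have h1 : (15 + (r + 1) + 2) * ((15 + (r + 1) + 2) * (6 * (15 + (r + 1) + 1) + 4)) + 1 +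
        (6 * r ^ 3 + 286 * r ^ 2 + 4508 * r + 23457) =
        2 * ((15 + r + 2) * ((15 + r + 2) * (6 * (15 + r + 1) + 4)) + 1) := by ring
    calc (15 + (r + 1) + 2) * ((15 + (r + 1) + 2) * (6 * (15 + (r + 1) + 1) + 4)) + 1
        ≤ 2 * ((15 + r + 2) * ((15 + r + 2) * (6 * (15 + r + 1) + 4)) + 1) := by
          rw [← h1]
          exact Nat.le_add_right _ _
      _ ≤ 2 * 2 ^ (15 + r) := Nat.mul_le_mul_left 2 ih
      _ = 2 ^ (15 + (r + 1)) := by ring

/-- a number growing faster than the length of the table -/
theorem grow' (R : ℕ) : (R + 2) * ((R + 2) * (6 * (R + 1) + 4)) + 1 ≤ 2 ^ R + 11977 := by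
  rcases Nat.lt_or_ge R 15 with h | h
  · interval_cases R <;> norm_num
  · obtain ⟨r, rfl⟩ := Nat.exists_eq_add_of_le h
    exact (grow r).trans (Nat.le_add_right _ _)

/-- there are polynomially many tables only -/
theorem two_pow_Zl (K : ℕ) (n : List Bool) :
    2 ^ ((Zl K n).length + 1) ≤ 2 ^ 11977 * (n.length + 1) := by
  have h1 := length_Zl K n
  rcases Nat.eq_zero_or_pos (rd n.length) with h0 | h0
  · rw [h0] at h1
    calc 2 ^ ((Zl K n).length + 1) ≤ 2 ^ 11977 := Nat.pow_le_pow_right (by norm_num) (by omega)
      _ ≤ 2 ^ 11977 * (n.length + 1) := Nat.le_mul_of_pos_right _ (Nat.succ_pos _)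
  · obtain ⟨R, hR⟩ : ∃ R, rd n.length = R + 1 := ⟨rd n.length - 1, by omega⟩
    rw [hR] at h1
    have h2 := grow' R
    have h3 : TT R < n.length := U2B.lt_rd.1 (by omega)
    have h4 : (Zl K n).length + 1 ≤ 2 ^ R + 11977 := by
      refine le_trans ?_ h2
      have e : R + 1 + 1 = R + 2 := by omega
      rw [e] at h1
      omega
    calc 2 ^ ((Zl K n).length + 1) ≤ 2 ^ (2 ^ R + 11977) :=
          Nat.pow_le_pow_right (by norm_num) h4
      _ = 2 ^ 11977 * TT R := by
          rw [pow_add, mul_comm]
          rfl
      _ ≤ 2 ^ 11977 * (n.length + 1) := Nat.mul_le_mul_left _ (by omega)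

/-! ### The search -/

variable (M : Alg) (K : ℕ) (O : Oracle) (qb : Polynomial ℕ) (C : List Bool → List Bool)

/-- the unary bound for the questions -/
def nn (x : List Bool) : List Bool := List.replicate (qb.eval x.length) true

/-- the candidate number `i` -/
noncomputable def cand (i : ℕ) (x : List Bool) : List Bool :=
  simF M (Zl K) O (pairBits (pairBits (H943R5.GC.st i) (nn qb x)) x)

/-- one step of the search -/
noncomputable def sstep (s : List Bool) : List Bool :=
  pairBits (unpair s).1 (pairBits (true :: (unpair (unpair s).2).1)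
    (if C (pairBits (unpair s).1 (unpair (unpair s).2).2) = [true] then (unpair (unpair s).2).2
      else cand M K O qb (unpair (unpair s).2).1.length (unpair s).1))

/-- the best solution after `i` steps -/
noncomputable def best (x : List Bool) : ℕ → List Bool
  | 0 => []
  | i + 1 => if C (pairBits x (best x i)) = [true] then best x i else cand M K O qb i x

/-- the number of steps -/
noncomputable def TS : Polynomial ℕ := Polynomial.C (2 ^ 11977) * (qb + 1)

/-- the result of the search -/
noncomputable def srch (x : List Bool) : List Bool :=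
  (unpair (unpair ((sstep M K O qb C)^[(TS qb).eval x.length] (pairBits x (pairBits [] [])))).2).2

theorem iter_sstep (x : List Bool) (i : ℕ) :
    (sstep M K O qb C)^[i] (pairBits x (pairBits [] [])) =
      pairBits x (pairBits (List.replicate i true) (best M K O qb C x i)) := by
  induction i with
  | zero => rfl
  | succ i ih =>
    rw [Function.iterate_succ_apply', ih]
    unfold sstep
    simp only [unpair_pairBits, List.length_replicate, best, List.replicate_succ]

theorem srch_eq (x : List Bool) : srch M K O qb C x = best M K O qb C x ((TS qb).eval x.length) := by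
  unfold srch
  rw [iter_sstep, unpair_pairBits, unpair_pairBits]

theorem isFP_cand : IsFP O (fun s => cand M K O qb (unpair (unpair s).2).1.length (unpair s).1) := by
  have h1 : Poly (fun s : List Bool => pairBits (pairBits
      (H943R5.GC.st (unpair (unpair s).2).1.length) (nn qb (unpair s).1)) (unpair s).1) := by
    refine poly_pairBits (poly_pairBits ?_ ?_) (poly_u1 Poly.id)
    · exact U2B.poly_st (Poly.length (poly_u1 (poly_u2 Poly.id)))
    · unfold nn
      exact Pool.Agent.H628R3.RO.p_replicate
        (UPoly.eval (UPoly.length (poly_u1 Poly.id)) qb) true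
  exact IsFP.comp (isFP_simF M (poly_Zl K) O) (IsFP.of_poly h1)

theorem isFP_sstep (hC : IsFP O C) : IsFP O (sstep M K O qb C) := by
  have h1 : Poly (fun s : List Bool => pairBits (unpair s).1 (unpair (unpair s).2).2) :=
    poly_pairBits (poly_u1 Poly.id) (poly_u2 (poly_u2 Poly.id))
  have h2 : IsFP O (fun s : List Bool => C (pairBits (unpair s).1 (unpair (unpair s).2).2)) :=
    IsFP.comp hC (IsFP.of_poly h1)
  have h3 := isFP_cand M K O qb
  refine IsFP.seq (φ := fun p => p.1) (ψ := fun p : List Bool × List Bool × List Bool =>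
    pairBits (unpair p.1).1 (pairBits (true :: (unpair (unpair p.1).2).1)
      (if p.2.1 = [true] then (unpair (unpair p.1).2).2 else p.2.2))) h2 h3 (Poly.fst Poly.id) ?_
  have h4 : Poly (fun p : List Bool × List Bool × List Bool => p.1) := Poly.fst Poly.id
  refine poly_pairBits (poly_u1 h4) (poly_pairBits
    (Poly.cons (NPC.Poly.const true) (poly_u1 (poly_u2 h4))) ?_)
  exact Poly.ite (Poly.decide_eq (Poly.fst (Poly.snd Poly.id)) (NPC.Poly.const _))
    (poly_u2 (poly_u2 h4)) (Poly.snd (Poly.snd Poly.id))

theorem length_best : ∃ b : Polynomial ℕ, ∀ (x : List Bool) (i : ℕ),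
    i ≤ (TS qb).eval x.length → (best M K O qb C x i).length ≤ b.eval x.length := by
  obtain ⟨N, hN⟩ := isFP_simF M (poly_Zl K) O
  obtain ⟨b, hb⟩ := A2.out_bound N
  refine ⟨b.comp (Polynomial.C 4 * TS qb + Polynomial.C 2 * qb + Polynomial.X + Polynomial.C 3),
    fun x i => ?_⟩
  induction i with
  | zero => intro _; simp [best]
  | succ i ih =>
    intro hi
    rw [best]
    split_ifs with h
    · exact ih (by omega)
    · unfold cand
      refine (hb O _ _ (hN _)).trans ?_
      rw [Polynomial.eval_comp]
      apply eval_mono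
      rw [A2.length_pairBits, A2.length_pairBits]
      have h1 := Pool.Agent.H583R2.length_str_le i
      unfold nn H943R5.GC.st
      rw [List.length_replicate]
      simp only [Polynomial.eval_add, Polynomial.eval_mul, Polynomial.eval_C, Polynomial.eval_X]
      omega

theorem isFP_srch (hC : IsFP O C) : IsFP O (srch M K O qb C) := by
  obtain ⟨b, hb⟩ := length_best M K O qb C
  have h1 : IsFP O (fun x => (sstep M K O qb C)^[(TS qb).eval x.length]
      (pairBits x (pairBits [] []))) := by
    refine IsFP.loop (isFP_sstep M K O qb C hC) (g := fun x => pairBits x (pairBits [] []))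
      (poly_pairBits Poly.id (NPC.Poly.const _)) (TS qb)
      (Polynomial.C 2 * Polynomial.X + Polynomial.C 2 * TS qb + b + Polynomial.C 2) ?_
    intro x i hi
    rw [iter_sstep, A2.length_pairBits, A2.length_pairBits, List.length_replicate]
    have h2 := hb x i hi
    simp only [Polynomial.eval_add, Polynomial.eval_mul, Polynomial.eval_C, Polynomial.eval_X]
    omega
  have h2 : Poly (fun s : List Bool => (unpair (unpair s).2).2) := poly_u2 (poly_u2 Poly.id)
  exact IsFP.comp (G := fun s : List Bool => (unpair (unpair s).2).2) (IsFP.of_poly h2) h1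

theorem best_of_cand (x : List Bool) (i₀ : ℕ) (h : C (pairBits x (cand M K O qb i₀ x)) = [true]) :
    ∀ i, i₀ < i → C (pairBits x (best M K O qb C x i)) = [true] := by
  intro i hi
  induction i, hi using Nat.le_induction with
  | base =>
    show C (pairBits x (best M K O qb C x (i₀ + 1))) = [true]
    rw [best]
    split_ifs with h1
    · exact h1
    · exact h
  | succ i hi ih =>
    rw [best, if_pos ih]
    exact ih

end Pool.Agent.W900.SP

namespace Pool.Agent.W900.SP

open Pool.Agent.NPC Pool.Agent.H620R2.Gauge Pool.Agent.H622R2 Pool.Agent.H943R5.GC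

/-- Solutions that can be checked without the additional oracle can be found without it, too. -/
theorem search {K : ℕ} {O T : Oracle} (hT : Sub K T) {F C : List Bool → List Bool}
    (hF : IsFP (join O T) F) (hC : IsFP O C) :
    ∃ H, IsFP O H ∧ ∀ x, C (pairBits x (F x)) = [true] → C (pairBits x (H x)) = [true] := by
  obtain ⟨M, hM⟩ := hF
  obtain ⟨qb, hqb⟩ := out_local M
  refine ⟨srch M K O qb C, isFP_srch M K O qb C hC, fun x hx => ?_⟩
  obtain ⟨c, hc⟩ : ∃ c, c = (Zl K (nn qb x)).map (join O T) := ⟨_, rfl⟩
  have h1 : M.out (cor (Zl K (nn qb x)) c O) x = some (F x) := by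
    rw [← hM x, hc]
    apply hqb
    intro y hy
    refine cor_eq hT O _ _ ?_
    unfold nn
    rwa [List.length_replicate]
  have h2 : cand M K O qb (Pool.Agent.H583R2.idx c) x = F x := by
    unfold cand
    have h3 : H943R5.GC.st (Pool.Agent.H583R2.idx c) = c := Pool.Agent.H583R2.str_idx c
    rw [h3]
    exact simF_eq h1
  rw [srch_eq]
  refine best_of_cand M K O qb C x (Pool.Agent.H583R2.idx c) (by rw [h2]; exact hx) _ ?_
  have h4 := (Pool.Agent.H583R2.idxR_bounds c.reverse).2
  rw [List.length_reverse] at h4
  have h5 : c.length = (Zl K (nn qb x)).length := by rw [hc, List.length_map]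
  rw [h5] at h4
  have h6 := two_pow_Zl K (nn qb x)
  have h7 : (nn qb x).length = qb.eval x.length := by
    unfold nn
    rw [List.length_replicate]
  rw [h7] at h6
  have h8 : (TS qb).eval x.length = 2 ^ 11977 * (qb.eval x.length + 1) := by
    unfold TS
    rw [Polynomial.eval_mul, Polynomial.eval_C, Polynomial.eval_add, Polynomial.eval_one]
  rw [h8]
  unfold Pool.Agent.H583R2.idx
  exact lt_of_lt_of_le (by omega) h6

end Pool.Agent.W900.SP
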