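import Pool.Agent.H943R5.GC.U2B
import Pool.Agent.H943R5.GC.N2
import Pool.Agent.H620R2.GaugeR.R1

/-!
# The possible positions of the signatures: a very sparse set
-/

set_option autoImplicit false

namespace Pool.Agent.W900.SP

open Pool.Agent.NPC Pool.Agent.H620R2.Gauge Pool.Agent.H622R2 Pool.Agent.H943R5.GC
  Pool.Agent.H943R5.GC.U2B
open Pool.Agent.H628R3.RO (p_replicate)

attribute [local irreducible] unpair

/-- an instance with the code `v` and the budget `|u|` -/
def ub (v u : List Bool) : List Bool := pairBits v (pairBits [] (List.replicate u.length true))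

/-- the positions of the signatures of the first codes in the first rounds -/
noncomputable def Zl (K : ℕ) (u : List Bool) : List (List Bool) :=
  (rounds (ub [] u)).flatMap (fun a => Qs K (ub (st a) u))

theorem zv_ub (v u : List Bool) : zv (ub v u) = v := by
  unfold zv ub
  rw [unpair_pairBits]

theorem zm_ub (v u : List Bool) : zm (ub v u) = u.length := by
  unfold zm ub
  rw [unpair_pairBits, unpair_pairBits, List.length_replicate]

theorem poly_ub {α : Type} [TEnc α] {v u : α → List Bool} (hv : Poly v) (hu : Poly u) :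
    Poly (fun a => ub (v a) (u a)) :=
  poly_pairBits hv (poly_pairBits (NPC.Poly.const []) (p_replicate (UPoly.length hu) true))

theorem poly_Zl (K : ℕ) : Poly (Zl K) := by
  unfold Zl
  refine Poly.flatMap (F := fun u a => Qs K (ub (st a) u))
    (p_rounds.comp (poly_ub (NPC.Poly.const []) Poly.id)) ?_
  exact (p_Qs K).comp (poly_ub (U2B.poly_st (Poly.snd Poly.id)) (Poly.fst Poly.id))

theorem mem_Zl {K : ℕ} {u y : List Bool} : y ∈ Zl K u ↔ ∃ a s i, a ≤ rd u.length ∧
    s ≤ rd u.length ∧ i < LL (st a) s ∧ y = YY K (st a) s i := by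
  unfold Zl Qs
  rw [List.mem_flatMap]
  constructor
  · rintro ⟨a, ha, h⟩
    rw [mem_rounds, zm_ub] at ha
    obtain ⟨s, hs, h⟩ := List.mem_flatMap.1 h
    have hs' := mem_rounds.1 hs
    obtain ⟨i, hi, h⟩ := (mem_yL hs').1 h
    rw [zv_ub] at hi h
    rw [zm_ub] at hs'
    exact ⟨a, s, i, ha, hs', hi, h.symm⟩
  · rintro ⟨a, s, i, ha, hs, hi, rfl⟩
    refine ⟨a, ?_, List.mem_flatMap.2 ⟨s, ?_, ?_⟩⟩
    · rw [mem_rounds, zm_ub]
      exact ha
    · rw [mem_rounds, zm_ub]
      exact hs
    · rw [mem_yL (by rw [zm_ub]; exact hs), zv_ub]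
      exact ⟨i, hi, rfl⟩

theorem length_rounds (z : List Bool) : (rounds z).length ≤ rd (zm z) + 1 := by
  have h1 : (rounds z).Nodup := List.nodup_range.filter _
  have h2 : (rounds z).toFinset ⊆ Finset.range (rd (zm z) + 1) := by
    intro s hs
    rw [List.mem_toFinset, mem_rounds] at hs
    rw [Finset.mem_range]
    omega
  have h3 := Finset.card_le_card h2
  rwa [List.toFinset_card_of_nodup h1, Finset.card_range] at h3

theorem length_LL {R a s : ℕ} (ha : a ≤ R) (hs : s ≤ R) : LL (st a) s ≤ 6 * R + 4 := by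
  unfold LL nmB
  rw [A2.length_pairBits]
  have h1 := Pool.Agent.H583R2.length_str_le a
  have h2 := Pool.Agent.H583R2.length_str_le s
  unfold H943R5.GC.st
  omega

theorem length_flatMap_le {α β : Type} (l : List α) (f : α → List β) (m n : ℕ)
    (hl : l.length ≤ m) (h : ∀ a ∈ l, (f a).length ≤ n) : (l.flatMap f).length ≤ m * n := by
  rw [List.length_flatMap]
  refine (List.sum_le_card_nsmul _ n ?_).trans ?_
  · intro x hx
    obtain ⟨a, ha, rfl⟩ := List.mem_map.1 hx
    exact h a ha
  · rw [List.length_map, smul_eq_mul]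
    exact Nat.mul_le_mul_right _ hl

theorem length_Zl (K : ℕ) (u : List Bool) :
    (Zl K u).length ≤ (rd u.length + 1) * ((rd u.length + 1) * (6 * rd u.length + 4)) := by
  unfold Zl
  refine length_flatMap_le _ _ _ _ ?_ ?_
  · have h := length_rounds (ub [] u)
    rwa [zm_ub] at h
  · intro a ha
    rw [mem_rounds, zm_ub] at ha
    unfold Qs
    refine length_flatMap_le _ _ _ _ ?_ ?_
    · have h := length_rounds (ub (st a) u)
      rwa [zm_ub] at h
    · intro s hs
      rw [mem_rounds, zm_ub] at hs
      unfold yL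
      rw [List.length_map, List.length_range, zv_ub, zm_ub]
      have h1 := rd_le u.length
      rw [min_eq_left (by omega)]
      exact length_LL ha hs

/-- the set of the possible elements of the additional oracle -/
def ZZ (K : ℕ) : Set (List Bool) := {q | (true :: q) ∈ Zl K (true :: q)}

theorem rd_mono {m n : ℕ} (h : m ≤ n) : rd m ≤ rd n := by
  by_contra hc
  push Not at hc
  have h1 := lt_rd.1 hc
  have h2 : ¬ (rd n < rd n) := lt_irrefl _
  rw [lt_rd] at h2
  omega

theorem Zl_mono {K : ℕ} {u u' y : List Bool} (h : u.length ≤ u'.length) (hy : y ∈ Zl K u) :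
    y ∈ Zl K u' := by
  obtain ⟨a, s, i, ha, hs, hi, rfl⟩ := mem_Zl.1 hy
  exact mem_Zl.2 ⟨a, s, i, ha.trans (rd_mono h), hs.trans (rd_mono h), hi, rfl⟩

/-- the positions of the active blocks are listed -/
theorem YY_mem_Zl {K : ℕ} {v : List Bool} {s i : ℕ} (hact : act v s) (hi : i < LL v s)
    {u : List Bool} (hu : (YY K v s i).length ≤ u.length) : YY K v s i ∈ Zl K u := by
  have hs : s ≤ rd u.length := by
    by_contra hc
    push Not at hc
    have h1 : TT (rd u.length) < TT s := by
      unfold TT tw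
      exact Nat.pow_lt_pow_right (by norm_num) (Nat.pow_lt_pow_right (by norm_num) hc)
    have h2 : ¬ (rd u.length < rd u.length) := lt_irrefl _
    rw [lt_rd] at h2
    have h3 := N2.le_length_YY K v s i
    have h4 : TT s ≤ TT (s + K) := N2.TT_mono (by omega)
    omega
  have hv : Pool.Agent.H583R2.idx v ≤ s := by
    have h1 : TT v.length ≤ (st s).length := hact
    have h2 := Pool.Agent.H583R2.length_str_le s
    have h3 := (Pool.Agent.H583R2.idxR_bounds v.reverse).2
    have h4 : 2 ^ (v.length + 1) ≤ TT v.length := by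
      unfold TT tw
      refine Nat.pow_le_pow_right (by norm_num) ?_
      exact Nat.lt_two_pow_self
    unfold Pool.Agent.H583R2.idx
    rw [List.length_reverse] at h3
    unfold H943R5.GC.st at h1
    omega
  have hv2 : st (Pool.Agent.H583R2.idx v) = v := Pool.Agent.H583R2.str_idx v
  rw [mem_Zl]
  exact ⟨Pool.Agent.H583R2.idx v, s, i, hv.trans hs, hs, by rwa [hv2], by rw [hv2]⟩

theorem YY_cons (K : ℕ) (v : List Bool) (s i : ℕ) : ∃ q, YY K v s i = true :: q := by
  unfold YY nmB
  generalize List.replicate (TT (s + K) + i) true = w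
  rcases v with _ | ⟨b, v⟩
  · exact ⟨_, rfl⟩
  · exact ⟨_, rfl⟩

theorem cons_of_mem_Zl {K : ℕ} {u y : List Bool} (h : y ∈ Zl K u) : ∃ q, y = true :: q := by
  obtain ⟨a, s, i, -, -, -, rfl⟩ := mem_Zl.1 h
  exact YY_cons K _ s i

theorem mem_ZZ_of_YY {K : ℕ} {v : List Bool} {s i : ℕ} (hact : act v s) (hi : i < LL v s)
    {q : List Bool} (hq : YY K v s i = true :: q) : q ∈ ZZ K := by
  show (true :: q) ∈ Zl K (true :: q)
  have h := YY_mem_Zl (K := K) (v := v) (s := s) (i := i) hact hi (u := true :: q)
    (by rw [hq])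
  rwa [hq] at h

theorem ZZ_dec (K : ℕ) : ∃ f : List Bool → List Bool, PolyTime f ∧
    ∀ q, q ∈ ZZ K ↔ f q = [true] := by
  refine ⟨fun q => if decide ((true :: q) ∈ Zl K (true :: q)) = true then [true] else [], ?_, ?_⟩
  · apply polyTime_of_poly_list
    have h : Poly (fun q : List Bool => true :: q) := Poly.cons (NPC.Poly.const true) Poly.id
    exact Poly.ite (Poly.decide_bool ((Poly.decide_mem h ((poly_Zl K).comp h)).congr
      fun _ => decide_eq_decide.2 Iff.rfl)) (NPC.Poly.const _) (NPC.Poly.const _)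
  · intro q
    show (true :: q) ∈ Zl K (true :: q) ↔
      (if decide ((true :: q) ∈ Zl K (true :: q)) = true then [true] else ([] : List Bool)) = [true]
    by_cases h : (true :: q) ∈ Zl K (true :: q)
    · have h2 : decide ((true :: q) ∈ Zl K (true :: q)) = true := decide_eq_true h
      rw [if_pos h2]
      exact ⟨fun _ => rfl, fun _ => h⟩
    · have h2 : ¬ decide ((true :: q) ∈ Zl K (true :: q)) = true := by
        rw [decide_eq_true_iff]
        exact h
      rw [if_neg h2]
      exact ⟨fun h3 => absurd h3 h, fun h3 => by simp at h3⟩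

end Pool.Agent.W900.SP
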