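import Pool.Agent.W900.SP.Left

/-!
# `P ≠ UP ∩ coUP` is preserved
-/

set_option autoImplicit false

namespace Pool.Agent.W900.SP

open Pool.Agent.NPC Pool.Agent.H620R2.Gauge Pool.Agent.H622R2 Pool.Agent.H943R5.GC

attribute [local irreducible] unpair

/-- the check of the certificate `e = b :: w` for `x ∈ L` (`b = true`) or `x ∉ L` -/
noncomputable def ck (V₁ V₀ : List Bool → List Bool) (p₁ p₀ : Polynomial ℕ) (y : List Bool) :
    List Bool :=
  if (unpair y).2.head? = some true ∧ (unpair y).2.tail.length ≤ p₁.eval (unpair y).1.length ∧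
      V₁ (pairBits (unpair y).1 (unpair y).2.tail) = [true] then [true]
  else if (unpair y).2.head? = some false ∧
      (unpair y).2.tail.length ≤ p₀.eval (unpair y).1.length ∧
      V₀ (pairBits (unpair y).1 (unpair y).2.tail) = [true] then [true]
  else []

theorem isFP_ck {A : Oracle} {V₁ V₀ : List Bool → List Bool} (p₁ p₀ : Polynomial ℕ)
    (h₁ : IsFP A V₁) (h₀ : IsFP A V₀) : IsFP A (ck V₁ V₀ p₁ p₀) := by
  have hp : Poly (fun y : List Bool => pairBits (unpair y).1 (unpair y).2.tail) :=
    poly_pairBits (poly_u1 Poly.id) (Poly.tail (poly_u2 Poly.id))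
  have k₁ : IsFP A (fun y => V₁ (pairBits (unpair y).1 (unpair y).2.tail)) :=
    IsFP.comp h₁ (IsFP.of_poly hp)
  have k₀ : IsFP A (fun y => V₀ (pairBits (unpair y).1 (unpair y).2.tail)) :=
    IsFP.comp h₀ (IsFP.of_poly hp)
  have hy : Poly (fun p : List Bool × List Bool × List Bool => p.1) := Poly.fst Poly.id
  have h1 : Poly (fun p : List Bool × List Bool × List Bool => p.2.1) :=
    Poly.fst (Poly.snd Poly.id)
  have h2 : Poly (fun p : List Bool × List Bool × List Bool => p.2.2) :=
    Poly.snd (Poly.snd Poly.id)
  have hl := Poly.length (Poly.tail (poly_u2 hy))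
  have he₁ := (UPoly.eval (UPoly.length (poly_u1 hy)) p₁).toPoly
  have he₀ := (UPoly.eval (UPoly.length (poly_u1 hy)) p₀).toPoly
  exact IsFP.seq (φ := fun p => p.1) (ψ := fun p : List Bool × List Bool × List Bool =>
    if (unpair p.1).2.head? = some true ∧ (unpair p.1).2.tail.length ≤
        p₁.eval (unpair p.1).1.length ∧ p.2.1 = [true] then [true]
    else if (unpair p.1).2.head? = some false ∧
        (unpair p.1).2.tail.length ≤ p₀.eval (unpair p.1).1.length ∧ p.2.2 = [true] then [true]
    else []) k₁ k₀ (Poly.fst Poly.id)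
    (Poly.ite (Poly.decide_and (Poly.decide_eq (Poly.head? (poly_u2 hy)) (NPC.Poly.const _))
      (Poly.decide_and (Poly.decide_le hl he₁) (Poly.decide_eq h1 (NPC.Poly.const _))))
      (NPC.Poly.const _)
      (Poly.ite (Poly.decide_and (Poly.decide_eq (Poly.head? (poly_u2 hy)) (NPC.Poly.const _))
        (Poly.decide_and (Poly.decide_le hl he₀) (Poly.decide_eq h2 (NPC.Poly.const _))))
        (NPC.Poly.const _) (NPC.Poly.const _)))

/-- the bits of the code of `e` -/
def bt (e : List Bool) (i : ℕ) : Bool := (pairBits e []).getD i false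

/-- the verifier for the bits of the certificates -/
noncomputable def vb (c : List Bool → List Bool) (b : Bool) (y : List Bool) : List Bool :=
  if c (pairBits (unpair (unpair y).1).1 (unpair y).2) = [true] ∧
    bt (unpair y).2 (unpair (unpair y).1).2.length = b then [true] else []

theorem isFP_vb {A : Oracle} {c : List Bool → List Bool} (hc : IsFP A c) (b : Bool) :
    IsFP A (vb c b) := by
  have h1 : Poly (fun y : List Bool => pairBits (unpair (unpair y).1).1 (unpair y).2) :=
    poly_pairBits (poly_u1 (poly_u1 Poly.id)) (poly_u2 Poly.id)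
  have h2 : IsFP A (fun y => c (pairBits (unpair (unpair y).1).1 (unpair y).2)) :=
    IsFP.comp hc (IsFP.of_poly h1)
  have hy : Poly (fun p : List Bool × List Bool × List Bool => p.1) := Poly.fst Poly.id
  refine IsFP.seq (φ := fun p => p.1) (ψ := fun p : List Bool × List Bool × List Bool =>
    if p.2.1 = [true] ∧ bt (unpair p.1).2 (unpair (unpair p.1).1).2.length = b then [true]
    else []) h2 h2 (Poly.fst Poly.id) ?_
  refine Poly.ite (Poly.decide_and (Poly.decide_eq (Poly.fst (Poly.snd Poly.id))
    (NPC.Poly.const _)) (Poly.decide_eq ?_ (NPC.Poly.const _))) (NPC.Poly.const _)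
    (NPC.Poly.const _)
  unfold bt
  exact Poly.getD (poly_pairBits (poly_u2 hy) (NPC.Poly.const []))
    (Poly.length (poly_u2 (poly_u1 hy))) (NPC.Poly.const false)

/-- one step of the search of a certificate bit by bit -/
def bstep (D : List Bool → List Bool) (s : List Bool) : List Bool :=
  pairBits (unpair s).1 ((unpair s).2 ++
    [decide (D (pairBits (unpair s).1 (List.replicate (unpair s).2.length true)) = [true])])

theorem isFP_bstep {A : Oracle} {D : List Bool → List Bool} (hD : IsFP A D) :
    IsFP A (bstep D) := by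
  have h1 : Poly (fun s : List Bool => pairBits (unpair s).1
      (List.replicate (unpair s).2.length true)) :=
    poly_pairBits (poly_u1 Poly.id) (Pool.Agent.H628R3.RO.p_replicate
      (UPoly.length (poly_u2 Poly.id)) true)
  have h2 : IsFP A (fun s : List Bool => D (pairBits (unpair s).1
      (List.replicate (unpair s).2.length true))) := IsFP.comp hD (IsFP.of_poly h1)
  refine IsFP.seq (φ := fun p => p.1) (ψ := fun p : List Bool × List Bool × List Bool =>
    pairBits (unpair p.1).1 ((unpair p.1).2 ++ [decide (p.2.1 = [true])])) h2 h2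
    (Poly.fst Poly.id) ?_
  have hy : Poly (fun p : List Bool × List Bool × List Bool => p.1) := Poly.fst Poly.id
  exact poly_pairBits (poly_u1 hy) (Poly.append (poly_u2 hy)
    (Poly.cons (Poly.decide_eq (Poly.fst (Poly.snd Poly.id)) (NPC.Poly.const _))
      (NPC.Poly.const [])))

theorem iter_bstep (D : List Bool → List Bool) (x : List Bool) (i : ℕ) :
    (bstep D)^[i] (pairBits x []) = pairBits x ((List.range i).map
      (fun j => decide (D (pairBits x (List.replicate j true)) = [true]))) := by
  induction i with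
  | zero => rfl
  | succ i ih =>
    rw [Function.iterate_succ_apply', ih]
    unfold bstep
    simp only [unpair_pairBits, List.length_map, List.length_range, List.range_succ,
      List.map_append, List.map_cons, List.map_nil]

theorem map_bt (e : List Bool) (m : ℕ) (h : 2 * e.length + 1 ≤ m) :
    unpair ((List.range m).map (bt e)) = (e, List.replicate (m - (2 * e.length + 1)) false) := by
  have h1 : (List.range m).map (bt e) =
      pairBits e (List.replicate (m - (2 * e.length + 1)) false) := by
    apply List.ext_getElem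
    · rw [List.length_map, List.length_range, A2.length_pairBits, List.length_replicate]
      omega
    · intro i h1 h2
      rw [List.getElem_map, List.getElem_range]
      unfold bt
      have h3 : pairBits e (List.replicate (m - (2 * e.length + 1)) false) =
          pairBits e [] ++ List.replicate (m - (2 * e.length + 1)) false := by
        unfold pairBits
        simp
      simp only [h3]
      rw [List.getElem_append]
      split_ifs with h4
      · rw [List.getD_eq_getElem _ _ h4]
      · rw [List.getD_eq_default _ _ (by omega), List.getElem_replicate]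
  rw [h1, unpair_pairBits]

end Pool.Agent.W900.SP

namespace Pool.Agent.W900.SP

open Pool.Agent.NPC Pool.Agent.H620R2.Gauge Pool.Agent.H622R2 Pool.Agent.H943R5.GC

attribute [local irreducible] unpair

theorem len_unpair1 (y : List Bool) : (unpair y).1.length ≤ y.length := by
  have := Pool.Agent.H543R3.PC.unpair_len y
  omega

/-- If `UP ∩ coUP` is not contained in `P` relative to `O`, then also relative to `join O T`. -/
theorem up_join {K : ℕ} {O T : Oracle} (hT : Sub K T) {L : Set (List Bool)}
    (h1 : Pool.Agent.H628R3.RO.IsUP O L) (h0 : Pool.Agent.H628R3.RO.IsUP O Lᶜ)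
    (hL : ¬ H620R2.Gauge.IsP O L) : ∃ L' : Set (List Bool), Pool.Agent.H628R3.RO.IsUP (join O T) L' ∧
      Pool.Agent.H628R3.RO.IsUP (join O T) L'ᶜ ∧ ¬ H620R2.Gauge.IsP (join O T) L' := by
  obtain ⟨V₁, p₁, hV₁, hL₁, hu₁⟩ := h1
  obtain ⟨V₀, p₀, hV₀, hL₀, hu₀⟩ := h0
  replace hV₁ := U6.isFP_ofRO hV₁
  replace hV₀ := U6.isFP_ofRO hV₀
  obtain ⟨c, hc⟩ : ∃ c, c = ck V₁ V₀ p₁ p₀ := ⟨_, rfl⟩
  have hcO : IsFP O c := by rw [hc]; exact isFP_ck p₁ p₀ hV₁ hV₀
  have hcA : IsFP (join O T) c := isFP_join T hcO
  -- the values of the check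
  have c_iff : ∀ x e : List Bool, c (pairBits x e) = [true] ↔
      (e.head? = some true ∧ e.tail.length ≤ p₁.eval x.length ∧
        V₁ (pairBits x e.tail) = [true]) ∨
      (e.head? = some false ∧ e.tail.length ≤ p₀.eval x.length ∧
        V₀ (pairBits x e.tail) = [true]) := by
    intro x e
    rw [hc]
    unfold ck
    rw [unpair_pairBits]
    dsimp only
    split_ifs with ha hb
    · exact ⟨fun _ => Or.inl ha, fun _ => rfl⟩
    · exact ⟨fun _ => Or.inr hb, fun _ => rfl⟩
    · constructor
      · intro h
        simp at h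
      · rintro (h | h)
        · exact absurd h ha
        · exact absurd h hb
  have c_len : ∀ x e : List Bool, c (pairBits x e) = [true] →
      e.length ≤ (p₁ + p₀ + 1).eval x.length := by
    intro x e h
    simp only [Polynomial.eval_add, Polynomial.eval_one]
    have hl : e.tail.length = e.length - 1 := List.length_tail
    rcases (c_iff x e).1 h with ⟨_, h2, _⟩ | ⟨_, h2, _⟩ <;> omega
  have c_ex : ∀ x : List Bool, ∃ e, c (pairBits x e) = [true] := by
    intro x
    by_cases hx : x ∈ L
    · obtain ⟨w, hw, hv⟩ := (hL₁ x).1 hx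
      exact ⟨true :: w, (c_iff x _).2 (Or.inl ⟨rfl, hw, hv⟩)⟩
    · obtain ⟨w, hw, hv⟩ := (hL₀ x).1 hx
      exact ⟨false :: w, (c_iff x _).2 (Or.inr ⟨rfl, hw, hv⟩)⟩
  have c_L : ∀ x e : List Bool, c (pairBits x e) = [true] → (x ∈ L ↔ e.head? = some true) := by
    intro x e h
    rcases (c_iff x e).1 h with ⟨h1, h2, h3⟩ | ⟨h1, h2, h3⟩
    · exact ⟨fun _ => h1, fun _ => (hL₁ x).2 ⟨_, h2, h3⟩⟩
    · have h4 : x ∈ Lᶜ := (hL₀ x).2 ⟨_, h2, h3⟩
      constructor
      · intro h5
        exact absurd h5 h4
      · intro h5
        rw [h1] at h5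
        simp at h5
  have c_un : ∀ x e e' : List Bool, c (pairBits x e) = [true] → c (pairBits x e') = [true] →
      e = e' := by
    intro x e e' h h'
    have hh : ∀ (e : List Bool) (b : Bool), e.head? = some b → e = b :: e.tail := by
      intro e b he
      rcases e with _ | ⟨a, e⟩
      · simp at he
      · simp only [List.head?_cons, Option.some.injEq] at he
        rw [he, List.tail_cons]
    have hiff := (c_L x e h).symm.trans (c_L x e' h')
    rcases (c_iff x e).1 h with ⟨h1, h2, h3⟩ | ⟨h1, h2, h3⟩ <;>
      rcases (c_iff x e').1 h' with ⟨h1', h2', h3'⟩ | ⟨h1', h2', h3'⟩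
    · rw [hh e _ h1, hh e' _ h1', hu₁ x _ _ h2 h2' h3 h3']
    · rw [h1, h1'] at hiff
      simp at hiff
    · rw [h1, h1'] at hiff
      simp at hiff
    · rw [hh e _ h1, hh e' _ h1', hu₀ x _ _ h2 h2' h3 h3']
  -- the language of the bits
  obtain ⟨W, hW⟩ : ∃ W : Bool → Set (List Bool), W = fun b =>
      {z | ∃ e, c (pairBits (unpair z).1 e) = [true] ∧ bt e (unpair z).2.length = b} := ⟨_, rfl⟩
  have hWc : (W true)ᶜ = W false := by
    ext z
    rw [hW]
    simp only [Set.mem_compl_iff, Set.mem_ofPred_eq]
    constructor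
    · intro h
      obtain ⟨e, he⟩ := c_ex (unpair z).1
      refine ⟨e, he, ?_⟩
      rw [← Bool.not_eq_true]
      exact fun h2 => h ⟨e, he, h2⟩
    · rintro ⟨e, he, h2⟩ ⟨e', he', h3⟩
      rw [c_un _ _ _ he' he, h2] at h3
      simp at h3
  have hWup : ∀ b, Pool.Agent.H628R3.RO.IsUP (join O T) (W b) := by
    intro b
    have hv : ∀ z e : List Bool, vb c b (pairBits z e) = [true] ↔
        c (pairBits (unpair z).1 e) = [true] ∧ bt e (unpair z).2.length = b := by
      intro z e
      unfold vb
      rw [unpair_pairBits]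
      dsimp only
      split_ifs with h
      · exact ⟨fun _ => h, fun _ => rfl⟩
      · exact ⟨fun h2 => by simp at h2, fun h2 => absurd h2 h⟩
    refine ⟨vb c b, p₁ + p₀ + 1, U6.isFP_toRO (isFP_vb hcA b), ?_, ?_⟩
    · intro z
      rw [hW]
      constructor
      · rintro ⟨e, he, h2⟩
        refine ⟨e, (c_len _ _ he).trans (eval_mono _ (len_unpair1 z)), (hv z e).2 ⟨he, h2⟩⟩
      · rintro ⟨e, _, h2⟩
        exact ⟨e, (hv z e).1 h2⟩
    · intro z e e' _ _ h h'
      exact c_un _ _ _ ((hv z e).1 h).1 ((hv z e').1 h').1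
  refine ⟨W true, hWup true, by rw [hWc]; exact hWup false, ?_⟩
  rintro ⟨D, hD, hDW⟩
  apply hL
  -- the certificates, relative to `join O T`
  obtain ⟨B, hB⟩ : ∃ B : Polynomial ℕ, B = Polynomial.C 2 * (p₁ + p₀ + 1) + 1 := ⟨_, rfl⟩
  have hF : IsFP (join O T) (fun x => (unpair (unpair ((bstep D)^[B.eval x.length]
      (pairBits x []))).2).1) := by
    have h2 : IsFP (join O T) (fun x => (bstep D)^[B.eval x.length] (pairBits x [])) := by
      refine IsFP.loop (isFP_bstep hD) (g := fun x => pairBits x [])
        (poly_pairBits Poly.id (NPC.Poly.const _)) B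
        (Polynomial.C 2 * Polynomial.X + B + Polynomial.C 1) ?_
      intro x i hi
      rw [iter_bstep, A2.length_pairBits, List.length_map, List.length_range]
      simp only [Polynomial.eval_add, Polynomial.eval_mul, Polynomial.eval_C, Polynomial.eval_X]
      omega
    have h3 : Poly (fun s : List Bool => (unpair (unpair s).2).1) := poly_u1 (poly_u2 Poly.id)
    exact IsFP.comp (G := fun s : List Bool => (unpair (unpair s).2).1) (IsFP.of_poly h3) h2
  have hFe : ∀ x e : List Bool, c (pairBits x e) = [true] →
      (unpair (unpair ((bstep D)^[B.eval x.length] (pairBits x []))).2).1 = e := by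
    intro x e he
    rw [iter_bstep, unpair_pairBits]
    have h2 : (List.range (B.eval x.length)).map
        (fun j => decide (D (pairBits x (List.replicate j true)) = [true])) =
        (List.range (B.eval x.length)).map (bt e) := by
      apply List.map_congr_left
      intro j _
      rw [Bool.eq_iff_iff, decide_eq_true_iff, ← hDW, hW]
      simp only [Set.mem_ofPred_eq, unpair_pairBits, List.length_replicate]
      constructor
      · rintro ⟨e', he', h3⟩
        rwa [c_un _ _ _ he he']
      · intro h3
        exact ⟨e, he, h3⟩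
    dsimp only
    rw [h2, map_bt e]
    have h3 := c_len x e he
    rw [hB]
    simp only [Polynomial.eval_add, Polynomial.eval_mul, Polynomial.eval_C,
      Polynomial.eval_one] at h3 ⊢
    omega
  obtain ⟨H, hH, hs⟩ := search hT hF hcO
  have hHe : ∀ x, c (pairBits x (H x)) = [true] := by
    intro x
    apply hs
    obtain ⟨e, he⟩ := c_ex x
    rw [hFe x e he]
    exact he
  refine ⟨fun x => (H x).take 1, ?_, ?_⟩
  · have h3 : Poly (fun s : List Bool => s.take 1) :=
      R1.poly_take Poly.id (UPoly.const 1)
    exact IsFP.comp (G := fun s : List Bool => s.take 1) (IsFP.of_poly h3) hH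
  · intro x
    rw [c_L x (H x) (hHe x)]
    show (H x).head? = some true ↔ (H x).take 1 = [true]
    generalize H x = h
    rcases h with _ | ⟨b, w⟩
    · simp
    · simp

end Pool.Agent.W900.SP
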